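import Pool.Agent.H37.CNW.Stmts
import Pool.Agent.H37.CSZ.Stmts

/-!
# Denominators of conductors: products of rank one groups, and more exact values for `p`-groups (`p` odd):
statements of the rows of the board `cnj`

Row `XXX` is a theorem `xxx_thm (h1 : S_AAA) ... : S_XXX` in `Pool/Agent/H<k>/CNJ/XXX.lean`, importing this
file (and what you need), namespace `Pool.CND`.
-/

set_option autoImplicit false

namespace Pool.CND

open Finset
open scoped Matrix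

/-- `G` is a quotient of `SL_2(q)` or `SU_3(q)` by a central subgroup, or a Suzuki group, and `r` is `(q - 1) / gcd(2, q - 1)`, `q (q - 1)`, `2 ^ n (q - 1)`, `q = 2 ^ (2 n + 1)` respectively -/
def RankOne (p : ℕ) (G : Type) [Group G] (r : ℕ) : Prop :=
  (∃ (F : Type) (_ : Field F) (f q : ℕ) (C : Subgroup (Matrix.SpecialLinearGroup (Fin 2) F))
    (_ : C.Normal), 1 ≤ f ∧ q = p ^ f ∧ Nat.card F = q ∧ C ≤ Subgroup.center _ ∧
    Nonempty (G ≃* Matrix.SpecialLinearGroup (Fin 2) F ⧸ C) ∧ r = (q - 1) / Nat.gcd 2 (q - 1)) ∨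
  (∃ (F : Type) (_ : Field F) (f q : ℕ) (σ : F →+* F) (C : Subgroup (SU3 σ)) (_ : C.Normal),
    1 ≤ f ∧ q = p ^ f ∧ Nat.card F = q ^ 2 ∧ (∀ a, σ a = a ^ q) ∧ C ≤ Subgroup.center _ ∧
    Nonempty (G ≃* SU3 σ ⧸ C) ∧ r = q * (q - 1)) ∨
  (p = 2 ∧ ∃ (F : Type) (_ : Field F) (_ : CharP F 2) (n q : ℕ) (φ : F →+* F), 1 ≤ n ∧
    q = 2 ^ (2 * n + 1) ∧ Nat.card F = q ∧ (∀ a, φ a = a ^ 2 ^ (n + 1)) ∧
    Nonempty (G ≃* Sz φ) ∧ r = 2 ^ n * (q - 1))

/-- HC1: `SLE`, `SLI` for `m = 1` (`F` embeds in `k`: `IsAlgClosed.lift`), `QU1` for `C` -/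
def S_HC1 : Prop := ∀ (p : ℕ) (k F : Type) [Field k] [IsAlgClosed k] [Field F] (f q : ℕ),
  p.Prime → CharP k p → 1 ≤ f → q = p ^ f → Nat.card F = q →
  ∀ (C : Subgroup (Matrix.SpecialLinearGroup (Fin 2) F)) [C.Normal],
  HasCover k (Matrix.SpecialLinearGroup (Fin 2) F ⧸ C)

/-- HC2: `UNE`, `UNK`, `QU1` -/
def S_HC2 : Prop := ∀ (p : ℕ) (k F : Type) [Field k] [IsAlgClosed k] [Field F] (f q : ℕ)
  (σ : F →+* F), p.Prime → CharP k p → 1 ≤ f → q = p ^ f → Nat.card F = q ^ 2 →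
  (∀ a, σ a = a ^ q) → ∀ (C : Subgroup (SU3 σ)) [C.Normal], HasCover k (SU3 σ ⧸ C)

/-- HC3: the cover of the board `csz` -/
def S_HC3 : Prop := ∀ (n q : ℕ) (k F : Type) [Field k] [IsAlgClosed k] [Field F] [CharP F 2]
  (φ : F →+* F), CharP k 2 → 1 ≤ n → q = 2 ^ (2 * n + 1) → Nat.card F = q →
  (∀ a, φ a = a ^ 2 ^ (n + 1)) → HasCover k (Sz φ)

/-- RKP: `PRF`, `HC1`-`HC3`, `rank_sl`, `rank_su` (`Pool/Agent/H37/CND2/Rank.lean`: repeat the 10-line proofs from `PSR`, `SLR`, `VSU`, `VPU`, `NQD`, `VZC`), `ZZZ` -/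
def S_RKP : Prop := ∀ (p n : ℕ) (k : Type) [Field k] [IsAlgClosed k] [CharP k p]
  (G : Fin n → Type) [∀ i, Group (G i)] (r : Fin n → ℕ), p.Prime →
  (∀ i, RankOne p (G i) (r i)) → NG k (∀ i, G i) = (Finset.univ : Finset (Fin n)).lcm r

/-- PMY: `APD` and `ZHF` (`p` odd) -/
def S_PMY : Prop := ∀ (p n r : ℕ) (k F G : Type) [Field k] [IsAlgClosed k] [CharP k p] [Field F]
  [Finite F] [CharP F p] [Group G] [Finite G] (A : Subgroup G)
  (κ : (Fin n → F) → (Fin r → F) → G) (β : G → Matrix (Fin r) (Fin n) F), p.Prime → p ≠ 2 →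
  (∃ a : ℕ, Nat.card G = p ^ a) → MNE p A → 1 ≤ n → 1 ≤ r →
  (∀ a a' c c', κ (a + a') (c + c') = κ a c * κ a' c') → (∀ a c, κ a c = 1 → a = 0 ∧ c = 0) →
  (∀ g h : G, β (g * h) = β g + β h) → Function.Surjective β →
  (∀ g a c, g * κ a c * g⁻¹ = κ a (c + β g *ᵥ a)) →
  (Subgroup.centralizer (A : Set G)).index = Nat.card F ^ n →
  NG k G = (Subgroup.centralizer (A : Set G)).index

/-- UT3: unitriangular `3 × 3` matrices.  `ZHF` with `n = r = 1`: `κ a c = 1 + a E_23 + c E_13`, `β g = g_12`; upper bound: `ZUW` (central `z = 1 + c E_13`), `H = {g_12 = 0}` abelian of index `q` -/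
def S_UT3 : Prop := ∀ (p f q : ℕ) (k F : Type) [Field k] [IsAlgClosed k] [CharP k p] [Field F]
  [Finite F] [CharP F p] (S : Subgroup (Matrix.GeneralLinearGroup (Fin 3) F)), p.Prime →
  p ≠ 2 → q = p ^ f → Nat.card F = q →
  (∀ g, g ∈ S ↔ (∀ i j, j < i → g.1 i j = 0) ∧ ∀ i, g.1 i i = 1) → NG k S = q

/-- UT4: unitriangular `4 × 4` matrices.  `ZHF` with `n = 2`, `r = 1`: `κ a c = 1 + a_0 E_13 + a_1 E_24 + c E_14`, `β g = (- g_34, g_12)`; upper bound: `ZUW` (central `z = 1 + c E_14`), `H = {g_12 = g_13 = 0}` of index `q ^ 2`, `H₀ = {h_14 = 0}` (`h ↦ h_14` is a homomorphism on `H`) -/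
def S_UT4 : Prop := ∀ (p f q : ℕ) (k F : Type) [Field k] [IsAlgClosed k] [CharP k p] [Field F]
  [Finite F] [CharP F p] (S : Subgroup (Matrix.GeneralLinearGroup (Fin 4) F)), p.Prime →
  p ≠ 2 → q = p ^ f → Nat.card F = q →
  (∀ g, g ∈ S ↔ (∀ i j, j < i → g.1 i j = 0) ∧ ∀ i, g.1 i i = 1) → NG k S = q ^ 2

/-- UTS: the Sylow `p`-subgroups of `GL_3(q)`, `GL_4(q)`: conjugate to the unitriangular matrices (`Matrix.card_GL_field`; conjugation is an isomorphism), `UT3`, `UT4` -/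
def S_UTS : Prop := ∀ (p f q : ℕ) (k F : Type) [Field k] [IsAlgClosed k] [CharP k p] [Field F]
  [Finite F] [CharP F p], p.Prime → p ≠ 2 → q = p ^ f → Nat.card F = q →
  (∀ S : Sylow p (Matrix.GeneralLinearGroup (Fin 3) F), NG k S = q) ∧
  ∀ S : Sylow p (Matrix.GeneralLinearGroup (Fin 4) F), NG k S = q ^ 2

end Pool.CND
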